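import Mathlib
import Pool.Agent.W16.CM.Stm
import Pool.Agent.W505.MH.BT

/-!
CM-BTS: reciprocals of the primes in a residue class, from Brun-Titchmarsh by dyadic blocks.
-/

set_option autoImplicit false

open Finset

namespace Pool.Agent.W330.CM

open Pool.Agent.W16.CM

/-- one dyadic block -/
theorem block {C : ℝ} (hC : 0 < C)
    (hBT : ∀ q b N : ℕ, 32 ≤ N → 1 ≤ q → q ^ 8 ≤ N → b.Coprime q →
      ∑ n ∈ (Icc 1 N).filter (fun n => n ≡ b [MOD q]), ArithmeticFunction.vonMangoldt n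
        ≤ C * N / q.totient)
    {z q X : ℕ} (hz : 32 ≤ z) (hq : 1 ≤ q) (hqz : q ^ 8 ≤ z) (hX : z ≤ X) :
    ∑ p ∈ (Ioc X (2 * X)).filter (fun p => p.Prime ∧ p ≡ 1 [MOD q]), (1 : ℝ) / p ≤
      2 * C / (q.totient * Real.log z) := by
  have hX0 : (0 : ℝ) < X := by
    have : 0 < X := by omega
    exact_mod_cast this
  have hz1 : (1 : ℝ) < z := by
    have : 1 < z := by omega
    exact_mod_cast this
  have hzX : (z : ℝ) ≤ X := by exact_mod_cast hX
  have hLz : 0 < Real.log z := Real.log_pos hz1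
  have hLX : Real.log z ≤ Real.log X := Real.log_le_log (by linarith) hzX
  have hLX0 : 0 < Real.log X := lt_of_lt_of_le hLz hLX
  have hφ : (0 : ℝ) < q.totient := by exact_mod_cast Nat.totient_pos.2 hq
  have h1 : ∑ p ∈ (Ioc X (2 * X)).filter (fun p => p.Prime ∧ p ≡ 1 [MOD q]), (1 : ℝ) / p ≤
      ∑ p ∈ (Ioc X (2 * X)).filter (fun p => p.Prime ∧ p ≡ 1 [MOD q]),
        ArithmeticFunction.vonMangoldt p * (1 / (X * Real.log X)) := by
    apply Finset.sum_le_sum
    intro p hp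
    rw [mem_filter, mem_Ioc] at hp
    obtain ⟨⟨hp1, hp2⟩, hp3, _⟩ := hp
    have hpX : (X : ℝ) ≤ p := by exact_mod_cast hp1.le
    have hp0 : (0 : ℝ) < p := lt_of_lt_of_le hX0 hpX
    rw [ArithmeticFunction.vonMangoldt_apply_prime hp3]
    have hlp : Real.log X ≤ Real.log p := Real.log_le_log hX0 hpX
    rw [mul_one_div, div_le_div_iff₀ hp0 (by positivity)]
    have : (X : ℝ) * Real.log X ≤ p * Real.log p := by
      apply mul_le_mul hpX hlp hLX0.le hp0.le
    linarith [mul_comm (p : ℝ) (Real.log p)]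
  have h2 : ∑ p ∈ (Ioc X (2 * X)).filter (fun p => p.Prime ∧ p ≡ 1 [MOD q]),
        ArithmeticFunction.vonMangoldt p ≤
      ∑ n ∈ (Icc 1 (2 * X)).filter (fun n => n ≡ 1 [MOD q]), ArithmeticFunction.vonMangoldt n := by
    apply Finset.sum_le_sum_of_subset_of_nonneg
    · intro p hp
      rw [mem_filter, mem_Ioc] at hp
      rw [mem_filter, mem_Icc]
      exact ⟨⟨by omega, hp.1.2⟩, hp.2.2⟩
    · intro i _ _
      exact ArithmeticFunction.vonMangoldt_nonneg
  have h3 := hBT q 1 (2 * X) (by omega) hq (by omega) (Nat.coprime_one_left q)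
  have h4 := h2.trans h3
  rw [← Finset.sum_mul] at h1
  refine h1.trans ?_
  have h5 : (∑ p ∈ (Ioc X (2 * X)).filter (fun p => p.Prime ∧ p ≡ 1 [MOD q]),
        ArithmeticFunction.vonMangoldt p) * (1 / (X * Real.log X)) ≤
      (C * ((2 * X : ℕ) : ℝ) / q.totient) * (1 / (X * Real.log X)) :=
    mul_le_mul_of_nonneg_right h4 (by positivity)
  refine h5.trans ?_
  have h6 : (C * ((2 * X : ℕ) : ℝ) / q.totient) * (1 / (X * Real.log X)) =
      2 * C / (q.totient * Real.log X) := by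
    push_cast
    field_simp
  rw [h6]
  apply div_le_div_of_nonneg_left (by positivity) (by positivity)
  exact mul_le_mul_of_nonneg_left hLX hφ.le

theorem blocks {C : ℝ} (hC : 0 < C)
    (hBT : ∀ q b N : ℕ, 32 ≤ N → 1 ≤ q → q ^ 8 ≤ N → b.Coprime q →
      ∑ n ∈ (Icc 1 N).filter (fun n => n ≡ b [MOD q]), ArithmeticFunction.vonMangoldt n
        ≤ C * N / q.totient)
    {z q : ℕ} (hz : 32 ≤ z) (hq : 1 ≤ q) (hqz : q ^ 8 ≤ z) (J : ℕ) :
    ∑ p ∈ (Ioc z (2 ^ J * z)).filter (fun p => p.Prime ∧ p ≡ 1 [MOD q]), (1 : ℝ) / p ≤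
      J * (2 * C / (q.totient * Real.log z)) := by
  induction J with
  | zero => simp
  | succ J ih =>
    have hX : z ≤ 2 ^ J * z := Nat.le_mul_of_pos_left z (by positivity)
    have hb := block hC hBT hz hq hqz hX
    have hsub : (Ioc z (2 ^ (J + 1) * z)).filter (fun p => p.Prime ∧ p ≡ 1 [MOD q]) ⊆
        (Ioc z (2 ^ J * z)).filter (fun p => p.Prime ∧ p ≡ 1 [MOD q]) ∪
        (Ioc (2 ^ J * z) (2 * (2 ^ J * z))).filter (fun p => p.Prime ∧ p ≡ 1 [MOD q]) := by
      intro p hp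
      rw [mem_filter, mem_Ioc] at hp
      rw [mem_union, mem_filter, mem_filter, mem_Ioc, mem_Ioc]
      have e : 2 ^ (J + 1) * z = 2 * (2 ^ J * z) := by ring
      rw [e] at hp
      by_cases h : p ≤ 2 ^ J * z
      · left; exact ⟨⟨hp.1.1, h⟩, hp.2⟩
      · right; exact ⟨⟨by omega, hp.1.2⟩, hp.2⟩
    have h1 : ∑ p ∈ (Ioc z (2 ^ (J + 1) * z)).filter (fun p => p.Prime ∧ p ≡ 1 [MOD q]),
          (1 : ℝ) / p ≤
        ∑ p ∈ (Ioc z (2 ^ J * z)).filter (fun p => p.Prime ∧ p ≡ 1 [MOD q]) ∪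
          (Ioc (2 ^ J * z) (2 * (2 ^ J * z))).filter (fun p => p.Prime ∧ p ≡ 1 [MOD q]),
          (1 : ℝ) / p :=
      Finset.sum_le_sum_of_subset_of_nonneg hsub (fun i _ _ => by positivity)
    have h2 : ∑ p ∈ (Ioc z (2 ^ J * z)).filter (fun p => p.Prime ∧ p ≡ 1 [MOD q]) ∪
          (Ioc (2 ^ J * z) (2 * (2 ^ J * z))).filter (fun p => p.Prime ∧ p ≡ 1 [MOD q]),
          (1 : ℝ) / p =
        ∑ p ∈ (Ioc z (2 ^ J * z)).filter (fun p => p.Prime ∧ p ≡ 1 [MOD q]), (1 : ℝ) / p +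
        ∑ p ∈ (Ioc (2 ^ J * z) (2 * (2 ^ J * z))).filter (fun p => p.Prime ∧ p ≡ 1 [MOD q]),
          (1 : ℝ) / p := by
      apply Finset.sum_union
      rw [Finset.disjoint_left]
      intro p hp hp'
      rw [mem_filter, mem_Ioc] at hp hp'
      omega
    push_cast
    have := h1.trans (le_of_eq h2)
    linarith

theorem bts : St_BTS := by
  obtain ⟨C, hC, hBT⟩ := Pool.Agent.W505.MH.bt
  intro K hK
  have hK0 : (0 : ℝ) < K := by exact_mod_cast hK
  refine ⟨6 * C * K, by positivity, ?_⟩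
  intro z q hz hq hqz
  have hz1 : (1 : ℝ) < z := by
    have : 1 < z := by omega
    exact_mod_cast this
  have hLz : 0 < Real.log z := Real.log_pos hz1
  have hφ : (0 : ℝ) < q.totient := by exact_mod_cast Nat.totient_pos.2 hq
  set J : ℕ := K * (Nat.log 2 z + 1) with hJ
  have hzJ : z ^ K ≤ 2 ^ J * z := by
    have h1 : z ≤ 2 ^ (Nat.log 2 z + 1) := (Nat.lt_pow_succ_log_self (by norm_num) z).le
    have h2 : z ^ K ≤ (2 ^ (Nat.log 2 z + 1)) ^ K := Nat.pow_le_pow_left h1 K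
    rw [← pow_mul, mul_comm (Nat.log 2 z + 1) K] at h2
    exact h2.trans (Nat.le_mul_of_pos_right _ (by omega))
  have h1 : ∑ p ∈ (Ioc z (z ^ K)).filter (fun p => p.Prime ∧ p ≡ 1 [MOD q]), (1 : ℝ) / p ≤
      ∑ p ∈ (Ioc z (2 ^ J * z)).filter (fun p => p.Prime ∧ p ≡ 1 [MOD q]), (1 : ℝ) / p := by
    apply Finset.sum_le_sum_of_subset_of_nonneg
    · apply Finset.filter_subset_filter
      exact Finset.Ioc_subset_Ioc_right hzJ
    · intro i _ _
      positivity
  refine h1.trans ((blocks hC hBT hz hq hqz J).trans ?_)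
  have hlog2 : (0.69 : ℝ) < Real.log 2 := by
    have := Real.log_two_gt_d9
    linarith
  have hl1 : (Nat.log 2 z : ℝ) * Real.log 2 ≤ Real.log z := by
    have h1 : 2 ^ Nat.log 2 z ≤ z := Nat.pow_log_le_self 2 (by omega)
    have h2 : ((2 : ℝ) ^ Nat.log 2 z) ≤ z := by exact_mod_cast h1
    have h3 := Real.log_le_log (by positivity) h2
    rwa [Real.log_pow] at h3
  have hl2 : (1 : ℝ) ≤ Real.log z := by
    have h32 : (32 : ℝ) ≤ z := by exact_mod_cast hz
    have h3 : Real.log 32 ≤ Real.log z := Real.log_le_log (by norm_num) h32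
    have h4 : Real.log 32 = 5 * Real.log 2 := by
      rw [show (32 : ℝ) = 2 ^ (5 : ℕ) by norm_num, Real.log_pow]
      norm_num
    linarith
  have hl3 : (Nat.log 2 z : ℝ) ≤ 2 * Real.log z := by
    have h0 : (0 : ℝ) ≤ Nat.log 2 z := by positivity
    nlinarith
  have hJ2 : (J : ℝ) ≤ K * (3 * Real.log z) := by
    rw [hJ]
    push_cast
    apply mul_le_mul_of_nonneg_left _ hK0.le
    linarith
  have h5 : (J : ℝ) * (2 * C / (q.totient * Real.log z)) ≤
      (K * (3 * Real.log z)) * (2 * C / (q.totient * Real.log z)) :=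
    mul_le_mul_of_nonneg_right hJ2 (by positivity)
  refine h5.trans (le_of_eq ?_)
  field_simp
  ring

end Pool.Agent.W330.CM
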